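import Pool.Agent.H15.NT.Tails

/-!
# MP_2822c4_an: the inequality for one letter and for a finite set of letters (helper file)
-/

set_option autoImplicit false

open Filter Topology

namespace Pool.Agent.H15.NT

lemma summable_point (G : Type*) [Group G] (a : G) :
    Summable fun x : G => Set.indicator ({a} : Set G) (1 : G → ℂ) x := by
  refine summable_of_hasFiniteSupport ?_
  refine (Set.finite_singleton a).subset fun x hx => ?_
  by_contra h
  exact hx (Set.indicator_of_notMem h _)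

lemma tsum_point {G : Type*} [Group G] (a : G) (φ : G → ℂ) :
    ∑' x : G, Set.indicator ({a} : Set G) (1 : G → ℂ) x * φ x = φ a := by
  rw [tsum_eq_single a]
  · simp
  · intro x hx
    rw [Set.indicator_of_notMem (by simpa using hx)]
    simp

variable {m : ℕ} {b : Fin m → FreeGroup ℕ → ℂ} {c : Fin m → FreeGroup ℕ → ℂ}

lemma letter_ineq (hb : ∀ i, Summable fun g => ‖b i g‖) (hb0 : ∀ i, ∑' g, b i g = 0)
    (hc : ∀ i, Summable fun g => ‖c i g‖) {M : ℝ} (hM : ∀ i, ∑' g, ‖c i g‖ ≤ M) (k : ℕ)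
    {lam δ : ℝ} (hlam : 0 ≤ lam)
    (herr : ∑' x, ‖(lam : ℂ) * (Set.indicator {1} 1 x - Set.indicator {FreeGroup.of k} 1 x) -
      ∑ i, ∑' y, b i y * c i (y⁻¹ * x)‖ ≤ (1 - δ) * (2 * lam)) :
    δ * lam ≤ M * ∑ i, off (sub k) (b i) := by
  classical
  set φ : FreeGroup ℕ → ℂ := (sub k : Set (FreeGroup ℕ)).indicator fun _ => (1 : ℂ) with hφdef
  set E : FreeGroup ℕ → ℂ := fun x =>
    (lam : ℂ) * (Set.indicator {1} 1 x - Set.indicator {FreeGroup.of k} 1 x) -
      ∑ i, ∑' y, b i y * c i (y⁻¹ * x) with hE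
  have hφ1 : ∀ x, ‖φ x‖ ≤ 1 := fun x =>
    (norm_indicator_le_norm_self (fun _ => (1 : ℂ)) x).trans (by simp)
  have hφ2 : ∀ x, ‖φ x - 1 / 2‖ = 1 / 2 := by
    intro x
    by_cases hx : x ∈ (sub k : Set (FreeGroup ℕ))
    · rw [hφdef, Set.indicator_of_mem hx]; norm_num
    · rw [hφdef, Set.indicator_of_notMem hx]; norm_num
  have hconv : ∀ i, Summable fun x => ∑' y, b i y * c i (y⁻¹ * x) := fun i =>
    summable_conv (hb i) (hc i)
  have hF : Summable fun x : FreeGroup ℕ =>
      (lam : ℂ) * (Set.indicator {1} 1 x - Set.indicator {FreeGroup.of k} 1 x) :=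
    ((summable_point _ 1).sub (summable_point _ (FreeGroup.of k))).mul_left _
  have hsum : Summable fun x => ∑ i, ∑' y, b i y * c i (y⁻¹ * x) :=
    summable_sum fun i _ => hconv i
  have hES : Summable E := hF.sub hsum
  have hmul : ∀ f : FreeGroup ℕ → ℂ, Summable f → Summable fun x => f x * φ x := by
    intro f hf
    refine Summable.of_norm_bounded hf.norm fun x => ?_
    rw [norm_mul]
    exact mul_le_of_le_one_right (norm_nonneg _) (hφ1 x)
  -- the pairing of E with φ
  have h1 : ∑' x, E x * φ x = lam - ∑ i, ∑' x, (∑' y, b i y * c i (y⁻¹ * x)) * φ x := by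
    have e1 : ∀ x, E x * φ x = (lam : ℂ) * (Set.indicator {1} 1 x * φ x) -
        (lam : ℂ) * (Set.indicator {FreeGroup.of k} 1 x * φ x) -
        ∑ i, (∑' y, b i y * c i (y⁻¹ * x)) * φ x := by
      intro x
      simp only [hE, ← Finset.sum_mul]
      ring
    have s1 := (hmul _ (summable_point _ (1 : FreeGroup ℕ))).mul_left (lam : ℂ)
    have s2 := (hmul _ (summable_point _ (FreeGroup.of k))).mul_left (lam : ℂ)
    have s3 : Summable fun x => ∑ i, (∑' y, b i y * c i (y⁻¹ * x)) * φ x :=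
      summable_sum fun i _ => hmul _ (hconv i)
    rw [tsum_congr e1, (s1.sub s2).tsum_sub s3, s1.tsum_sub s2, tsum_mul_left, tsum_mul_left,
      tsum_point, tsum_point, Summable.tsum_finsetSum fun i _ => hmul _ (hconv i)]
    have e2 : φ 1 = 1 := Set.indicator_of_mem (sub k).one_mem _
    have e3 : φ (FreeGroup.of k) = 0 := Set.indicator_of_notMem (of_not_mem_sub k) _
    rw [e2, e3]
    ring
  -- the sum of E
  have h2 : ∑' x, E x = 0 := by
    have s1 := (summable_point _ (1 : FreeGroup ℕ)).mul_left (lam : ℂ)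
    have e0 := tsum_point (1 : FreeGroup ℕ) fun _ => 1
    have e0' := tsum_point (FreeGroup.of k) fun _ => 1
    simp only [mul_one] at e0 e0'
    have e1 : ∑' x : FreeGroup ℕ, (lam : ℂ) *
        (Set.indicator {1} 1 x - Set.indicator {FreeGroup.of k} 1 x) = 0 := by
      rw [tsum_mul_left, (summable_point _ 1).tsum_sub (summable_point _ (FreeGroup.of k)), e0, e0']
      ring
    have e2 : ∑' x, ∑ i, ∑' y, b i y * c i (y⁻¹ * x) = 0 := by
      rw [Summable.tsum_finsetSum fun i _ => hconv i]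
      exact Finset.sum_eq_zero fun i _ => tsum_conv_zero (hb i) (hb0 i) (hc i)
    have e3 : ∑' x, E x = _ := hF.tsum_sub hsum
    rw [e3, e1, e2, sub_zero]
  have h3 : ‖∑' x, E x * φ x‖ ≤ (1 - δ) * lam := by
    have e1 : ∑' x, E x * φ x = ∑' x, E x * (φ x - 1 / 2) := by
      have s1 := hmul E hES
      have s2 : Summable fun x => E x * (1 / 2) := hES.mul_right _
      have e2 : ∀ x, E x * (φ x - 1 / 2) = E x * φ x - E x * (1 / 2) := fun x => by ring
      rw [tsum_congr e2, s1.tsum_sub s2, tsum_mul_right, h2]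
      ring
    rw [e1]
    have s3 : Summable fun x => ‖E x‖ * (1 / 2) := hES.norm.mul_right _
    have e4 : ‖∑' x, E x * (φ x - 1 / 2)‖ ≤ ∑' x, ‖E x‖ * (1 / 2) := by
      refine tsum_of_norm_bounded s3.hasSum fun x => ?_
      rw [norm_mul, hφ2]
    rw [tsum_mul_right] at e4
    have e5 : ∑' x, ‖E x‖ ≤ (1 - δ) * (2 * lam) := herr
    nlinarith [e4, e5]
  have h4 : ‖∑ i, ∑' x, (∑' y, b i y * c i (y⁻¹ * x)) * φ x‖ ≤ M * ∑ i, off (sub k) (b i) := by
    refine (norm_sum_le _ _).trans ?_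
    rw [Finset.mul_sum]
    refine Finset.sum_le_sum fun i _ => ?_
    exact (pair_bound (sub k) (hb i) (hb0 i) (hc i)).trans
      (mul_le_mul_of_nonneg_right (hM i) (off_nonneg _ _))
  have h5 : (lam : ℂ) = ∑' x, E x * φ x +
      ∑ i, ∑' x, (∑' y, b i y * c i (y⁻¹ * x)) * φ x := by
    rw [h1]; ring
  have h6 : lam = ‖(lam : ℂ)‖ := by
    rw [Complex.norm_real, Real.norm_of_nonneg hlam]
  have h7 : lam ≤ (1 - δ) * lam + M * ∑ i, off (sub k) (b i) := by
    calc lam = ‖(lam : ℂ)‖ := h6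
      _ ≤ _ := by rw [h5]; exact norm_add_le _ _
      _ ≤ _ := add_le_add h3 h4
  linarith

lemma off_le_letters {b : FreeGroup ℕ → ℂ} (hb : Summable fun g => ‖b g‖) (S : Finset ℕ) :
    ∑ k ∈ S, off (sub k) b ≤ ∑' g, ‖b g‖ * ((letters g ∩ S).card : ℝ) := by
  classical
  unfold off
  have hs : ∀ k ∈ S, Summable fun g => ((sub k : Set (FreeGroup ℕ))ᶜ).indicator
      (fun g => ‖b g‖) g := fun k _ => hb.indicator _
  rw [← Summable.tsum_finsetSum hs]
  have hS : Summable fun g => ‖b g‖ * ((letters g ∩ S).card : ℝ) := by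
    refine Summable.of_nonneg_of_le (fun g => by positivity) (fun g => ?_)
      (hb.mul_right (S.card : ℝ))
    refine mul_le_mul_of_nonneg_left ?_ (norm_nonneg _)
    exact_mod_cast Finset.card_le_card Finset.inter_subset_right
  refine Summable.tsum_le_tsum (fun g => ?_) (summable_sum hs) hS
  have h1 : ∀ k ∈ S, ((sub k : Set (FreeGroup ℕ))ᶜ).indicator (fun g => ‖b g‖) g
      ≤ if k ∈ letters g then ‖b g‖ else 0 := by
    intro k _
    by_cases hk : k ∈ letters g
    · rw [if_pos hk]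
      exact Set.indicator_le_self' (fun _ _ => norm_nonneg _) g
    · rw [if_neg hk, Set.indicator_of_notMem]
      intro h
      exact hk (mem_letters_of_not_mem h)
  refine (Finset.sum_le_sum h1).trans_eq ?_
  rw [← Finset.sum_filter, Finset.sum_const, nsmul_eq_mul, mul_comm]
  congr 3
  ext k
  simp [and_comm]

end Pool.Agent.H15.NT
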