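import Pool.Agent.H15.NT.Ineq

/-!
# MP_2822c4_an: arbitrary tails (helper file)
-/

set_option autoImplicit false

open Filter Topology

namespace Pool.Agent.H15.NT

/-- the approximation of `lam • (e - a_k)` by `∑ i, b i ⋆ c i` -/
noncomputable def err {m : ℕ} (b c : Fin m → FreeGroup ℕ → ℂ) (k : ℕ) (lam : ℝ) : ℝ :=
  ∑' x, ‖(lam : ℂ) * (Set.indicator {1} 1 x - Set.indicator {FreeGroup.of k} 1 x) -
    ∑ i, ∑' y, b i y * c i (y⁻¹ * x)‖

theorem finite_ineq (S : Finset ℕ) {m : ℕ} {b : Fin m → FreeGroup ℕ → ℂ}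
    {c : Fin m → ℕ → FreeGroup ℕ → ℂ} {M δ : ℝ} {lam : ℕ → ℝ}
    (hb : ∀ i, Summable (b i)) (hb0 : ∀ i, ∑' g, b i g = 0) (hc : ∀ i k, Summable (c i k))
    (hM : ∀ i k, ∑' g, ‖c i k g‖ ≤ M) (hlam : ∀ k, 0 ≤ lam k)
    (herr : ∀ k ∈ S, err b (fun i => c i k) k (lam k) ≤ (1 - δ) * (2 * lam k)) :
    δ * ∑ k ∈ S, lam k ≤ |M| * ∑ i, ∑' g, ‖b i g‖ * ((letters g ∩ S).card : ℝ) := by
  have h1 : ∀ k ∈ S, δ * lam k ≤ |M| * ∑ i, off (sub k) (b i) := fun k hk =>
    letter_ineq (fun i => (hb i).norm) hb0 (fun i => (hc i k).norm)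
      (fun i => (hM i k).trans (le_abs_self M)) k (hlam k) (herr k hk)
  rw [Finset.mul_sum]
  refine (Finset.sum_le_sum h1).trans ?_
  rw [← Finset.mul_sum, Finset.sum_comm]
  refine mul_le_mul_of_nonneg_left ?_ (abs_nonneg _)
  exact Finset.sum_le_sum fun i _ => off_le_letters (hb i).norm S

/-- the greatest monotone minorant of `Θ` -/
noncomputable def low (Θ : ℕ → ℝ) (s : ℕ) : ℝ := ⨅ n : ℕ, Θ (s + n)

lemma low_bdd {Θ : ℕ → ℝ} (hΘ : Tendsto Θ atTop atTop) (s : ℕ) :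
    BddBelow (Set.range fun n => Θ (s + n)) := by
  refine (bddBelow_range_of_tendsto_atTop_atTop hΘ).mono ?_
  rintro _ ⟨n, rfl⟩
  exact ⟨s + n, rfl⟩

lemma low_le {Θ : ℕ → ℝ} (hΘ : Tendsto Θ atTop atTop) {s n : ℕ} (h : s ≤ n) :
    low Θ s ≤ Θ n := by
  have := ciInf_le (low_bdd hΘ s) (n - s)
  rwa [Nat.add_sub_cancel' h] at this

lemma low_mono {Θ : ℕ → ℝ} (hΘ : Tendsto Θ atTop atTop) : Monotone (low Θ) := by
  intro s t hst
  exact le_ciInf fun n => low_le hΘ (hst.trans (Nat.le_add_right t n))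

lemma low_tendsto {Θ : ℕ → ℝ} (hΘ : Tendsto Θ atTop atTop) : Tendsto (low Θ) atTop atTop := by
  rw [tendsto_atTop_atTop] at hΘ ⊢
  intro A
  obtain ⟨N, hN⟩ := hΘ A
  exact ⟨N, fun s hs => le_ciInf fun n => hN _ (hs.trans (Nat.le_add_right s n))⟩

/-- the auxiliary null sequence -/
noncomputable def uu (Θ : ℕ → ℝ) (s : ℕ) : ℝ := 1 / ((s : ℝ) + 1) + 1 / max (low Θ s) 1

lemma uu_pos (Θ : ℕ → ℝ) (s : ℕ) : 0 < uu Θ s := by
  unfold uu
  have : 0 < max (low Θ s) 1 := lt_max_of_lt_right one_pos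
  positivity

lemma uu_anti {Θ : ℕ → ℝ} (hΘ : Tendsto Θ atTop atTop) : Antitone (uu Θ) := by
  intro s t hst
  unfold uu
  have h1 : (s : ℝ) ≤ t := by exact_mod_cast hst
  refine add_le_add ?_ ?_
  · exact one_div_le_one_div_of_le (by positivity) (by linarith)
  · exact one_div_le_one_div_of_le (lt_max_of_lt_right one_pos)
      (max_le_max (low_mono hΘ hst) le_rfl)

lemma uu_tendsto {Θ : ℕ → ℝ} (hΘ : Tendsto Θ atTop atTop) : Tendsto (uu Θ) atTop (𝓝 0) := by
  have h1 : Tendsto (fun s : ℕ => 1 / ((s : ℝ) + 1)) atTop (𝓝 0) :=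
    tendsto_one_div_add_atTop_nhds_zero_nat
  have h2 : Tendsto (fun s : ℕ => 1 / max (low Θ s) 1) atTop (𝓝 0) := by
    have h3 : Tendsto (fun s => max (low Θ s) 1) atTop atTop :=
      tendsto_atTop_mono (fun s => le_max_left _ _) (low_tendsto hΘ)
    simp only [one_div]
    exact h3.inv_tendsto_atTop
  have h4 := h1.add h2
  rw [add_zero] at h4
  exact h4

/-- the coefficients of the null sequence -/
noncomputable def lam (Θ : ℕ → ℝ) (k : ℕ) : ℝ := √(uu Θ (Nat.sqrt k))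

lemma lam_pos (Θ : ℕ → ℝ) (k : ℕ) : 0 < lam Θ k := Real.sqrt_pos.2 (uu_pos _ _)

lemma sqrt_tendsto {Θ : ℕ → ℝ} (hΘ : Tendsto Θ atTop atTop) :
    Tendsto (fun s => √(uu Θ s)) atTop (𝓝 0) := by
  have := (uu_tendsto hΘ).sqrt
  rwa [Real.sqrt_zero] at this

lemma lam_tendsto {Θ : ℕ → ℝ} (hΘ : Tendsto Θ atTop atTop) :
    Tendsto (lam Θ) atTop (𝓝 0) := by
  have h1 : Tendsto Nat.sqrt atTop atTop :=
    tendsto_atTop_atTop.2 fun b => ⟨b * b, fun a ha => Nat.le_sqrt.2 ha⟩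
  exact (sqrt_tendsto hΘ).comp h1

lemma sum_lam {Θ : ℕ → ℝ} (hΘ : Tendsto Θ atTop atTop) (s : ℕ) :
    (s : ℝ) * s * √(uu Θ s) ≤ ∑ k ∈ Finset.range (s * s), lam Θ k := by
  have h1 : ∀ k ∈ Finset.range (s * s), √(uu Θ s) ≤ lam Θ k := by
    intro k hk
    refine Real.sqrt_le_sqrt (uu_anti hΘ ?_)
    have : k < s * s := Finset.mem_range.1 hk
    exact (Nat.sqrt_lt.2 this).le
  have h2 := Finset.card_nsmul_le_sum _ _ _ h1
  rw [Finset.card_range, nsmul_eq_mul] at h2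
  push_cast at h2
  exact h2

lemma mass_bound {Θ : ℕ → ℝ} (hΘ : Tendsto Θ atTop atTop) {b : FreeGroup ℕ → ℂ}
    (hb : Summable fun g => ‖b g‖)
    (hT : Summable fun g => ‖b g‖ * |Θ (letters g).card|) {s : ℕ} (hs : 1 ≤ low Θ s) :
    ∑' g, ‖b g‖ * ((letters g ∩ Finset.range (s * s)).card : ℝ) ≤
      s * ∑' g, ‖b g‖ + (s * s : ℝ) / low Θ s * ∑' g, ‖b g‖ * |Θ (letters g).card| := by
  have hpos : 0 < low Θ s := by linarith
  rw [← tsum_mul_left, ← tsum_mul_left, ← (hb.mul_left _).tsum_add (hT.mul_left _)]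
  have h1 : ∀ g, ‖b g‖ * ((letters g ∩ Finset.range (s * s)).card : ℝ) ≤
      s * ‖b g‖ + (s * s : ℝ) / low Θ s * (‖b g‖ * |Θ (letters g).card|) := by
    intro g
    have hn : 0 ≤ ‖b g‖ := norm_nonneg _
    rcases Nat.lt_or_ge s (letters g).card with h | h
    · have h2 : low Θ s ≤ |Θ (letters g).card| := (low_le hΘ h.le).trans (le_abs_self _)
      have h3 : ((letters g ∩ Finset.range (s * s)).card : ℝ) ≤ s * s := by
        have := Finset.card_le_card (Finset.inter_subset_right (s₁ := letters g)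
          (s₂ := Finset.range (s * s)))
        rw [Finset.card_range] at this
        exact_mod_cast this
      have h4 : (s * s : ℝ) ≤ (s * s : ℝ) / low Θ s * |Θ (letters g).card| := by
        rw [div_mul_eq_mul_div, le_div_iff₀ hpos]
        exact mul_le_mul_of_nonneg_left h2 (by positivity)
      calc ‖b g‖ * ((letters g ∩ Finset.range (s * s)).card : ℝ)
          ≤ ‖b g‖ * ((s * s : ℝ) / low Θ s * |Θ (letters g).card|) :=
            mul_le_mul_of_nonneg_left (h3.trans h4) hn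
        _ = (s * s : ℝ) / low Θ s * (‖b g‖ * |Θ (letters g).card|) := by ring
        _ ≤ _ := le_add_of_nonneg_left (by positivity)
    · have h3 : ((letters g ∩ Finset.range (s * s)).card : ℝ) ≤ s := by
        have := (Finset.card_le_card (Finset.inter_subset_left (s₁ := letters g)
          (s₂ := Finset.range (s * s)))).trans h
        exact_mod_cast this
      have h5 : 0 ≤ (s * s : ℝ) / low Θ s * (‖b g‖ * |Θ (letters g).card|) := by positivity
      nlinarith [mul_le_mul_of_nonneg_left h3 hn]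
  have hL : Summable fun g => ‖b g‖ * ((letters g ∩ Finset.range (s * s)).card : ℝ) := by
    refine Summable.of_nonneg_of_le (fun g => by positivity) h1 ?_
    exact (hb.mul_left _).add (hT.mul_left _)
  exact Summable.tsum_le_tsum h1 hL ((hb.mul_left _).add (hT.mul_left _))

theorem no_moment {Θ : ℕ → ℝ} (hΘ : Tendsto Θ atTop atTop) {m : ℕ}
    {b : Fin m → FreeGroup ℕ → ℂ} {c : Fin m → ℕ → FreeGroup ℕ → ℂ} {M δ : ℝ} (hδ : 0 < δ)
    (hb : ∀ i, Summable (b i)) (hb0 : ∀ i, ∑' g, b i g = 0) (hc : ∀ i k, Summable (c i k))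
    (hM : ∀ i k, ∑' g, ‖c i k g‖ ≤ M)
    (herr : ∀ k, err b (fun i => c i k) k (lam Θ k) ≤ (1 - δ) * (2 * lam Θ k)) :
    ∃ i, ¬ Summable fun g => ‖b i g‖ * Θ (letters g).card := by
  by_contra hcon
  push Not at hcon
  have hT : ∀ i, Summable fun g => ‖b i g‖ * |Θ (letters g).card| := by
    intro i
    refine (hcon i).abs.congr fun g => ?_
    rw [abs_mul, abs_of_nonneg (norm_nonneg _)]
  set N : ℝ := ∑ i, ∑' g, ‖b i g‖ with hN
  set T : ℝ := ∑ i, ∑' g, ‖b i g‖ * |Θ (letters g).card| with hTdef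
  have hN0 : 0 ≤ N := Finset.sum_nonneg fun i _ => tsum_nonneg fun g => norm_nonneg _
  have hT0 : 0 ≤ T := Finset.sum_nonneg fun i _ => tsum_nonneg fun g => by positivity
  have key : ∀ᶠ s : ℕ in atTop, δ ≤ |M| * (2 * N + T) * √(uu Θ s) := by
    filter_upwards [(low_tendsto hΘ).eventually_ge_atTop 1, eventually_ge_atTop 1] with s hs hs1
    have hs1' : (1 : ℝ) ≤ s := by exact_mod_cast hs1
    have hpos : 0 < low Θ s := by linarith
    have e1 := finite_ineq (Finset.range (s * s)) hb hb0 hc hM (fun k => (lam_pos Θ k).le)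
      (fun k _ => herr k)
    have e2 : ∑ i, ∑' g, ‖b i g‖ * ((letters g ∩ Finset.range (s * s)).card : ℝ) ≤
        s * N + (s * s : ℝ) / low Θ s * T := by
      rw [hN, hTdef, Finset.mul_sum, Finset.mul_sum, ← Finset.sum_add_distrib]
      exact Finset.sum_le_sum fun i _ => mass_bound hΘ (hb i).norm (hT i) hs
    have e3 := sum_lam hΘ s
    have hsq : 0 < √(uu Θ s) := Real.sqrt_pos.2 (uu_pos _ _)
    have huu : √(uu Θ s) * √(uu Θ s) = uu Θ s := Real.mul_self_sqrt (uu_pos _ _).le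
    have hu : uu Θ s = 1 / ((s : ℝ) + 1) + 1 / low Θ s := by
      unfold uu; rw [max_eq_left hs]
    have hM0 : 0 ≤ |M| := abs_nonneg M
    have e4 : δ * ((s : ℝ) * s * √(uu Θ s)) ≤ |M| * (s * N + (s * s : ℝ) / low Θ s * T) :=
      (mul_le_mul_of_nonneg_left e3 hδ.le).trans (e1.trans (mul_le_mul_of_nonneg_left e2 hM0))
    have e5 : (s : ℝ) * N + (s * s : ℝ) / low Θ s * T ≤ (s * s : ℝ) * ((2 * N + T) * uu Θ s) := by
      have f1 : (s : ℝ) ≤ s * s * (2 * (1 / ((s : ℝ) + 1))) := by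
        have : (s : ℝ) * s * (2 * (1 / ((s : ℝ) + 1))) = 2 * (s * s) / (s + 1) := by
          field_simp
        rw [this, le_div_iff₀ (by positivity)]
        nlinarith
      have f2 : 0 ≤ 1 / low Θ s := by positivity
      have f3 : 0 ≤ 1 / ((s : ℝ) + 1) := by positivity
      have f4 : (s * s : ℝ) / low Θ s * T = (s * s : ℝ) * (1 / low Θ s * T) := by ring
      have f5 : (s : ℝ) * N ≤ s * s * (2 * (1 / ((s : ℝ) + 1))) * N :=
        mul_le_mul_of_nonneg_right f1 hN0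
      rw [f4, hu]
      have f6 : 0 ≤ (s : ℝ) * s * (2 * N * (1 / low Θ s) + T * (1 / ((s : ℝ) + 1))) := by
        positivity
      nlinarith [f5, f6]
    have e6 : (s : ℝ) * s * √(uu Θ s) * δ ≤
        (s : ℝ) * s * √(uu Θ s) * (|M| * (2 * N + T) * √(uu Θ s)) := by
      calc (s : ℝ) * s * √(uu Θ s) * δ = δ * ((s : ℝ) * s * √(uu Θ s)) := by ring
        _ ≤ |M| * (s * N + (s * s : ℝ) / low Θ s * T) := e4
        _ ≤ |M| * ((s * s : ℝ) * ((2 * N + T) * uu Θ s)) := mul_le_mul_of_nonneg_left e5 hM0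
        _ = |M| * ((s * s : ℝ) * ((2 * N + T) * (√(uu Θ s) * √(uu Θ s)))) := by rw [huu]
        _ = (s : ℝ) * s * √(uu Θ s) * (|M| * (2 * N + T) * √(uu Θ s)) := by ring
    exact le_of_mul_le_mul_left e6 (by positivity)
  have hlim : Tendsto (fun s => |M| * (2 * N + T) * √(uu Θ s)) atTop (𝓝 0) := by
    have := (sqrt_tendsto hΘ).const_mul (|M| * (2 * N + T))
    rwa [mul_zero] at this
  exact absurd (ge_of_tendsto hlim key) (not_le.2 hδ)

end Pool.Agent.H15.NT
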