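import Mathlib

/-!
# MP_2822c4_an: factors of null sequences have no uniform tail control (helper file)

`letters g` is the finite set of the indices of the free generators which occur in the reduced
word of `g`.
-/

set_option autoImplicit false

open Filter Topology

namespace Pool.Agent.H15.NT

/-- the indices of the free generators which occur (with exponent `1` or `-1`) in the reduced
word of `g` -/
def letters (g : FreeGroup ℕ) : Finset ℕ := (g.toWord.map Prod.fst).toFinset

/-- the subgroup generated by the free generators other than `a k` -/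
def sub (k : ℕ) : Subgroup (FreeGroup ℕ) := Subgroup.closure (FreeGroup.of '' {j | j ≠ k})

lemma mk_mem_sub {k : ℕ} (L : List (ℕ × Bool)) (h : ∀ p ∈ L, p.1 ≠ k) :
    FreeGroup.mk L ∈ sub k := by
  induction L with
  | nil => exact (sub k).one_mem
  | cons p L ih =>
    have h1 : FreeGroup.mk (p :: L) = FreeGroup.mk [p] * FreeGroup.mk L := by
      rw [FreeGroup.mul_mk]; rfl
    rw [h1]
    refine (sub k).mul_mem ?_ (ih fun q hq => h q (List.mem_cons_of_mem _ hq))
    have h2 : FreeGroup.of p.1 ∈ sub k :=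
      Subgroup.subset_closure ⟨p.1, h p List.mem_cons_self, rfl⟩
    rcases p with ⟨j, b⟩
    cases b with
    | true => exact h2
    | false =>
      have h3 : FreeGroup.mk [(j, false)] = (FreeGroup.of j)⁻¹ := by
        unfold FreeGroup.of
        rw [FreeGroup.inv_mk]
        rfl
      rw [h3]
      exact (sub k).inv_mem h2

lemma mem_letters_of_not_mem {k : ℕ} {g : FreeGroup ℕ} (h : g ∉ sub k) : k ∈ letters g := by
  by_contra hk
  apply h
  rw [← FreeGroup.mk_toWord (x := g)]
  refine mk_mem_sub _ fun p hp hpk => hk ?_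
  unfold letters
  rw [List.mem_toFinset, List.mem_map]
  exact ⟨p, hp, hpk⟩

lemma of_not_mem_sub (k : ℕ) : FreeGroup.of k ∉ sub k := by
  intro h
  let f : FreeGroup ℕ →* Multiplicative ℤ :=
    FreeGroup.lift fun j => if j = k then Multiplicative.ofAdd 1 else 1
  have h1 : sub k ≤ f.ker := by
    unfold sub
    rw [Subgroup.closure_le]
    rintro _ ⟨j, hj, rfl⟩
    have hj' : j ≠ k := hj
    simp [f, MonoidHom.mem_ker, hj']
  have h2 := h1 h
  simp only [f, MonoidHom.mem_ker, FreeGroup.lift_apply_of, if_true] at h2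
  exact absurd (Multiplicative.ofAdd.injective h2) one_ne_zero

section Conv

variable {G : Type*} [Group G]

lemma summable_prod {b c : G → ℂ} (hb : Summable fun g => ‖b g‖) (hc : Summable fun g => ‖c g‖)
    {φ : G → ℂ} (hφ : ∀ x, ‖φ x‖ ≤ 1) :
    Summable fun p : G × G => b p.1 * c p.2 * φ (p.1 * p.2) := by
  have h1 : Summable fun p : G × G => ‖b p.1‖ * ‖c p.2‖ :=
    hb.mul_of_nonneg hc (fun _ => norm_nonneg _) fun _ => norm_nonneg _
  refine Summable.of_norm_bounded h1 fun p => ?_
  rw [norm_mul, norm_mul]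
  exact mul_le_of_le_one_right (by positivity) (hφ _)

/-- the change of variables `(x, y) ↦ (y, y⁻¹ x)` -/
def shear (G : Type*) [Group G] : G × G ≃ G × G where
  toFun p := (p.2, p.2⁻¹ * p.1)
  invFun q := (q.1 * q.2, q.1)
  left_inv p := by simp
  right_inv q := by simp

lemma summable_shear {b c : G → ℂ} (hb : Summable fun g => ‖b g‖)
    (hc : Summable fun g => ‖c g‖) {φ : G → ℂ} (hφ : ∀ x, ‖φ x‖ ≤ 1) :
    Summable fun p : G × G => b p.2 * c (p.2⁻¹ * p.1) * φ p.1 := by
  have h1 := (shear G).summable_iff.2 (summable_prod hb hc hφ)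
  refine h1.congr fun p => ?_
  simp [shear]

lemma pair_conv {b c : G → ℂ} (hb : Summable fun g => ‖b g‖) (hc : Summable fun g => ‖c g‖)
    {φ : G → ℂ} (hφ : ∀ x, ‖φ x‖ ≤ 1) :
    ∑' x, (∑' y, b y * c (y⁻¹ * x)) * φ x = ∑' z, c z * ∑' y, b y * φ (y * z) := by
  have h1 : ∑' x, (∑' y, b y * c (y⁻¹ * x)) * φ x
      = ∑' x, ∑' y, b y * c (y⁻¹ * x) * φ x := tsum_congr fun x => (tsum_mul_right).symm
  have h2 : ∑' x, ∑' y, b y * c (y⁻¹ * x) * φ x
      = ∑' p : G × G, b p.2 * c (p.2⁻¹ * p.1) * φ p.1 :=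
    ((summable_shear hb hc hφ).tsum_prod).symm
  have h3 : ∑' p : G × G, b p.2 * c (p.2⁻¹ * p.1) * φ p.1
      = ∑' q : G × G, b q.1 * c q.2 * φ (q.1 * q.2) := by
    rw [← (shear G).tsum_eq fun q : G × G => b q.1 * c q.2 * φ (q.1 * q.2)]
    refine tsum_congr fun p => ?_
    simp [shear]
  have h4 : ∑' q : G × G, b q.1 * c q.2 * φ (q.1 * q.2)
      = ∑' z, ∑' y, b y * c z * φ (y * z) := by
    rw [(summable_prod hb hc hφ).tsum_prod]
    have h5 : Summable (Function.uncurry fun y z : G => b y * c z * φ (y * z)) :=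
      summable_prod hb hc hφ
    exact h5.tsum_comm.symm
  rw [h1, h2, h3, h4]
  refine tsum_congr fun z => ?_
  rw [← tsum_mul_left]
  exact tsum_congr fun y => by ring

lemma summable_conv {b c : G → ℂ} (hb : Summable fun g => ‖b g‖)
    (hc : Summable fun g => ‖c g‖) : Summable fun x => ∑' y, b y * c (y⁻¹ * x) := by
  have h1 := (summable_shear hb hc (φ := fun _ => 1) (fun _ => by simp)).prod
  simpa using h1

lemma summable_norm_conv {b c : G → ℂ} (hb : Summable fun g => ‖b g‖)
    (hc : Summable fun g => ‖c g‖) : Summable fun x => ‖∑' y, b y * c (y⁻¹ * x)‖ :=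
  (summable_conv hb hc).norm

/-- the mass of `b` off the subgroup `H` -/
noncomputable def off (H : Subgroup G) (b : G → ℂ) : ℝ :=
  ∑' g, (Hᶜ : Set G).indicator (fun g => ‖b g‖) g

lemma off_nonneg (H : Subgroup G) (b : G → ℂ) : 0 ≤ off H b :=
  tsum_nonneg fun _ => Set.indicator_nonneg (fun _ _ => norm_nonneg _) _

lemma coset_bound (H : Subgroup G) {b : G → ℂ} (hb : Summable fun g => ‖b g‖)
    (hb0 : ∑' g, b g = 0) (z : G) :
    ‖∑' y, b y * (H : Set G).indicator (fun _ => (1 : ℂ)) (y * z)‖ ≤ off H b := by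
  classical
  have hoff : Summable fun g => (Hᶜ : Set G).indicator (fun g => ‖b g‖) g := hb.indicator _
  by_cases hz : z ∈ H
  · have h1 : ∀ y, b y * (H : Set G).indicator (fun _ => (1 : ℂ)) (y * z)
        = b y - (Hᶜ : Set G).indicator b y := by
      intro y
      by_cases hy : y ∈ H
      · have : y * z ∈ (H : Set G) := H.mul_mem hy hz
        rw [Set.indicator_of_mem this, Set.indicator_of_notMem (by simpa using hy)]
        ring
      · have : y * z ∉ (H : Set G) := fun h => hy ((Subgroup.mul_mem_cancel_right H hz).1 h)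
        rw [Set.indicator_of_notMem this, Set.indicator_of_mem (by simpa using hy)]
        ring
    have hb' : Summable b := hb.of_norm
    rw [tsum_congr h1, (hb'.tsum_sub (hb'.indicator _)), hb0, zero_sub, norm_neg]
    refine (norm_tsum_le_tsum_norm ?_).trans_eq ?_
    · refine hoff.congr fun y => ?_
      exact (norm_indicator_eq_indicator_norm b y).symm
    · exact tsum_congr fun y => norm_indicator_eq_indicator_norm b y
  · have h1 : ∀ y, ‖b y * (H : Set G).indicator (fun _ => (1 : ℂ)) (y * z)‖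
        ≤ (Hᶜ : Set G).indicator (fun g => ‖b g‖) y := by
      intro y
      by_cases hy : y ∈ H
      · have : y * z ∉ (H : Set G) := fun h => hz ((Subgroup.mul_mem_cancel_left H hy).1 h)
        rw [Set.indicator_of_notMem this]
        simp only [mul_zero, norm_zero]
        exact Set.indicator_nonneg (fun _ _ => norm_nonneg _) _
      · rw [Set.indicator_of_mem (show y ∈ (Hᶜ : Set G) by simpa using hy), norm_mul]
        refine mul_le_of_le_one_right (norm_nonneg _) ?_
        exact (norm_indicator_le_norm_self (fun _ => (1 : ℂ)) (y * z)).trans (by simp)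
    exact tsum_of_norm_bounded hoff.hasSum h1

lemma pair_bound (H : Subgroup G) {b c : G → ℂ} (hb : Summable fun g => ‖b g‖)
    (hb0 : ∑' g, b g = 0) (hc : Summable fun g => ‖c g‖) :
    ‖∑' x, (∑' y, b y * c (y⁻¹ * x)) * (H : Set G).indicator (fun _ => (1 : ℂ)) x‖
      ≤ (∑' g, ‖c g‖) * off H b := by
  have hφ : ∀ x, ‖(H : Set G).indicator (fun _ => (1 : ℂ)) x‖ ≤ 1 := fun x =>
    (norm_indicator_le_norm_self (fun _ => (1 : ℂ)) x).trans (by simp)
  rw [pair_conv hb hc hφ, ← tsum_mul_right]
  have h1 : Summable fun z => ‖c z‖ * off H b := hc.mul_right _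
  refine tsum_of_norm_bounded h1.hasSum fun z => ?_
  rw [norm_mul]
  exact mul_le_mul_of_nonneg_left (coset_bound H hb hb0 z) (norm_nonneg _)

lemma tsum_conv_zero {b c : G → ℂ} (hb : Summable fun g => ‖b g‖)
    (hb0 : ∑' g, b g = 0) (hc : Summable fun g => ‖c g‖) :
    ∑' x, (∑' y, b y * c (y⁻¹ * x)) = 0 := by
  have h := pair_conv hb hc (φ := fun _ => 1) (fun _ => by simp)
  simp only [mul_one] at h
  rw [h, hb0]
  simp

end Conv

end Pool.Agent.H15.NT
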