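import Pool.Agent.H84.NT.Targets

open MeasureTheory ProbabilityTheory
open scoped ENNReal

set_option autoImplicit false

namespace Pool.Agent.H15.NT

open Pool.Agent.H99.NS Pool.Agent.H22.LPP Pool.Agent.H95.INS Pool.Agent.H84.NT

lemma ind_eq (H : Set Env) (ω : Env) : (H.indicator (fun _ => (1:ℝ)) ω = 1 ∧ ω ∈ H) ∨
    (H.indicator (fun _ => (1:ℝ)) ω = 0 ∧ ω ∉ H) := by
  by_cases h : ω ∈ H
  · left; simp [h]
  · right; simp [h]

lemma cov_le (q : ℝ) {H H' : Set Env} (hH : MeasurableSet H) (hH' : MeasurableSet H')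
    (R R' : Set Site) (hR : DepOn R (fun ω => ω ∈ H)) (hR' : DepOn R' (fun ω => ω ∈ H')) :
    ∫ ω, (H.indicator (fun _ => (1:ℝ)) ω - (PE q).real H) *
      (H'.indicator (fun _ => (1:ℝ)) ω - (PE q).real H') ∂(PE q) ≤
      (open Classical in if ¬ Disjoint R R' then (1 : ℝ) else 0) := by
  have p1 : (PE q).real H ≤ 1 := measureReal_le_one
  have p2 : (PE q).real H' ≤ 1 := measureReal_le_one
  have p3 : 0 ≤ (PE q).real H := measureReal_nonneg
  have p4 : 0 ≤ (PE q).real H' := measureReal_nonneg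
  have m1 : Measurable (H.indicator (fun _ => (1:ℝ)) : Env → ℝ) :=
    measurable_const.indicator hH
  have m2 : Measurable (H'.indicator (fun _ => (1:ℝ)) : Env → ℝ) :=
    measurable_const.indicator hH'
  have b : ∀ (H : Set Env) (ω : Env), 0 ≤ H.indicator (fun _ => (1:ℝ)) ω ∧
      H.indicator (fun _ => (1:ℝ)) ω ≤ 1 := by
    intro H ω
    rcases ind_eq H ω with h | h <;> rw [h.1] <;> norm_num
  by_cases hd : Disjoint R R'
  · simp only [hd, not_true_eq_false, if_false]
    have i1 : Integrable (H.indicator (fun _ => (1:ℝ)) : Env → ℝ) (PE q) :=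
      (integrable_const 1).indicator hH
    have i2 : Integrable (H'.indicator (fun _ => (1:ℝ)) : Env → ℝ) (PE q) :=
      (integrable_const 1).indicator hH'
    have e1 : ∫ ω, H.indicator (fun _ => (1:ℝ)) ω ∂(PE q) = (PE q).real H := by
      rw [integral_indicator_const _ hH]; simp
    have e2 : ∫ ω, H'.indicator (fun _ => (1:ℝ)) ω ∂(PE q) = (PE q).real H' := by
      rw [integral_indicator_const _ hH']; simp
    have e3 : ∀ ω, H.indicator (fun _ => (1:ℝ)) ω * H'.indicator (fun _ => (1:ℝ)) ω =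
        (H ∩ H').indicator (fun _ => (1:ℝ)) ω := by
      intro ω
      by_cases h1 : ω ∈ H <;> by_cases h2 : ω ∈ H' <;> simp [h1, h2]
    have i3 : Integrable (fun ω => H.indicator (fun _ => (1:ℝ)) ω *
        H'.indicator (fun _ => (1:ℝ)) ω) (PE q) := by
      simp_rw [e3]
      exact (integrable_const 1).indicator (hH.inter hH')
    have e4 : ∫ ω, H.indicator (fun _ => (1:ℝ)) ω * H'.indicator (fun _ => (1:ℝ)) ω ∂(PE q) =
        (PE q).real H * (PE q).real H' := by
      simp_rw [e3]
      rw [integral_indicator_const _ (hH.inter hH')]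
      simp only [smul_eq_mul, mul_one, Measure.real]
      rw [measure_inter_of_depOn q hd hH hH' hR hR', ENNReal.toReal_mul]
    have e5 : ∀ ω, (H.indicator (fun _ => (1:ℝ)) ω - (PE q).real H) *
        (H'.indicator (fun _ => (1:ℝ)) ω - (PE q).real H') =
        H.indicator (fun _ => (1:ℝ)) ω * H'.indicator (fun _ => (1:ℝ)) ω -
          (PE q).real H' * H.indicator (fun _ => (1:ℝ)) ω -
          (PE q).real H * H'.indicator (fun _ => (1:ℝ)) ω +
          (PE q).real H * (PE q).real H' := by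
      intro ω; ring
    simp_rw [e5]
    have j1 : Integrable (fun ω => (PE q).real H' * H.indicator (fun _ => (1:ℝ)) ω) (PE q) :=
      i1.const_mul _
    have j2 : Integrable (fun ω => (PE q).real H * H'.indicator (fun _ => (1:ℝ)) ω) (PE q) :=
      i2.const_mul _
    have j3 : Integrable (fun ω => H.indicator (fun _ => (1:ℝ)) ω *
        H'.indicator (fun _ => (1:ℝ)) ω - (PE q).real H' * H.indicator (fun _ => (1:ℝ)) ω)
        (PE q) := i3.sub j1
    have j4 : Integrable (fun ω => H.indicator (fun _ => (1:ℝ)) ω *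
        H'.indicator (fun _ => (1:ℝ)) ω - (PE q).real H' * H.indicator (fun _ => (1:ℝ)) ω -
        (PE q).real H * H'.indicator (fun _ => (1:ℝ)) ω) (PE q) := j3.sub j2
    rw [integral_add j4 (integrable_const _), integral_sub j3 j2, integral_sub i3 j1,
      integral_const_mul, integral_const_mul, e1, e2, e4]
    simp
    linarith
  · simp only [hd, not_false_eq_true, if_true]
    have : ∀ ω, (H.indicator (fun _ => (1:ℝ)) ω - (PE q).real H) *
        (H'.indicator (fun _ => (1:ℝ)) ω - (PE q).real H') ≤ 1 := by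
      intro ω
      obtain ⟨a1, a2⟩ := b H ω
      obtain ⟨a3, a4⟩ := b H' ω
      have h1 : |H.indicator (fun _ => (1:ℝ)) ω - (PE q).real H| ≤ 1 := by
        rw [abs_le]; constructor <;> linarith
      have h2 : |H'.indicator (fun _ => (1:ℝ)) ω - (PE q).real H'| ≤ 1 := by
        rw [abs_le]; constructor <;> linarith
      refine (le_abs_self _).trans ?_
      rw [abs_mul]
      exact mul_le_one₀ h1 (abs_nonneg _) h2
    have hint : Integrable (fun ω => (H.indicator (fun _ => (1:ℝ)) ω - (PE q).real H) *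
        (H'.indicator (fun _ => (1:ℝ)) ω - (PE q).real H')) (PE q) := by
      refine Integrable.of_bound (((m1.sub_const _).mul (m2.sub_const _)).aestronglyMeasurable) 1
        (Filter.Eventually.of_forall fun ω => ?_)
      obtain ⟨a1, a2⟩ := b H ω
      obtain ⟨a3, a4⟩ := b H' ω
      have h1 : |H.indicator (fun _ => (1:ℝ)) ω - (PE q).real H| ≤ 1 := by
        rw [abs_le]; constructor <;> linarith
      have h2 : |H'.indicator (fun _ => (1:ℝ)) ω - (PE q).real H'| ≤ 1 := by
        rw [abs_le]; constructor <;> linarith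
      rw [Real.norm_eq_abs, abs_mul]
      exact mul_le_one₀ h1 (abs_nonneg _) h2
    calc _ ≤ ∫ ω, (1:ℝ) ∂(PE q) := integral_mono hint (integrable_const _) this
      _ = 1 := by simp

open Classical in
theorem pf_VSU : T_VSU := by
  intro q I H R D Psi hH hR hD hPm hP
  have m1 : ∀ i ∈ I, Measurable ((H i).indicator (fun _ => (1:ℝ)) : Env → ℝ) :=
    fun i hi => measurable_const.indicator (hH i hi)
  have b : ∀ (H : Set Env) (ω : Env), 0 ≤ H.indicator (fun _ => (1:ℝ)) ω ∧
      H.indicator (fun _ => (1:ℝ)) ω ≤ 1 := by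
    intro H ω
    rcases ind_eq H ω with h | h <;> rw [h.1] <;> norm_num
  have pb : ∀ i, 0 ≤ (PE q).real (H i) ∧ (PE q).real (H i) ≤ 1 :=
    fun i => ⟨measureReal_nonneg, measureReal_le_one⟩
  obtain ⟨Y, hY⟩ : ∃ Y : (ℕ × ℤ) → Env → ℝ, Y = fun i ω =>
    (H i).indicator (fun _ => (1:ℝ)) ω - (PE q).real (H i) := ⟨_, rfl⟩
  have hYm : ∀ i ∈ I, Measurable (Y i) := by
    intro i hi
    rw [hY]
    exact (m1 i hi).sub_const _
  have hYb : ∀ i ω, |Y i ω| ≤ 1 := by
    intro i ω
    rw [hY]
    obtain ⟨a1, a2⟩ := b (H i) ω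
    obtain ⟨a3, a4⟩ := pb i
    rw [abs_le]; constructor <;> linarith
  have hYY : ∀ i ∈ I, ∀ j ∈ I, Integrable (fun ω => Y i ω * Y j ω) (PE q) := by
    intro i hi j hj
    refine Integrable.of_bound (((hYm i hi).mul (hYm j hj)).aestronglyMeasurable) 1
      (Filter.Eventually.of_forall fun ω => ?_)
    rw [Real.norm_eq_abs, abs_mul]
    exact mul_le_one₀ (hYb i ω) (abs_nonneg _) (hYb j ω)
  have hPi : Integrable Psi (PE q) := by
    refine Integrable.of_bound hPm.aestronglyMeasurable 1 (Filter.Eventually.of_forall fun ω => ?_)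
    rw [Real.norm_eq_abs, abs_of_nonneg (hP ω).1]
    exact (hP ω).2
  have hYP : ∀ i ∈ I, Integrable (fun ω => Y i ω * Psi ω) (PE q) := by
    intro i hi
    refine Integrable.of_bound (((hYm i hi).mul hPm).aestronglyMeasurable) 1
      (Filter.Eventually.of_forall fun ω => ?_)
    rw [Real.norm_eq_abs, abs_mul]
    exact mul_le_one₀ (hYb i ω) (abs_nonneg _) (by rw [abs_of_nonneg (hP ω).1]; exact (hP ω).2)
  have hHP : ∀ i ∈ I, Integrable (fun ω => (H i).indicator (fun _ => (1:ℝ)) ω * Psi ω) (PE q) := by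
    intro i hi
    refine Integrable.of_bound (((m1 i hi).mul hPm).aestronglyMeasurable) 1
      (Filter.Eventually.of_forall fun ω => ?_)
    rw [Real.norm_eq_abs, abs_mul, abs_of_nonneg (b (H i) ω).1, abs_of_nonneg (hP ω).1]
    exact mul_le_one₀ (b (H i) ω).2 (hP ω).1 (hP ω).2
  obtain ⟨X, hX⟩ : ∃ X : Env → ℝ, X = fun ω => ∑ i ∈ I, Y i ω := ⟨_, rfl⟩
  have e1 : ∑ i ∈ I, (∫ ω, (H i).indicator (fun _ => (1:ℝ)) ω * Psi ω ∂(PE q) -
      (PE q).real (H i) * ∫ ω, Psi ω ∂(PE q)) = ∫ ω, X ω * Psi ω ∂(PE q) := by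
    have : ∀ ω, X ω * Psi ω = ∑ i ∈ I, Y i ω * Psi ω := by
      intro ω; rw [hX]; simp only; rw [Finset.sum_mul]
    simp_rw [this]
    rw [integral_finsetSum _ hYP]
    refine Finset.sum_congr rfl fun i hi => ?_
    have : ∀ ω, Y i ω * Psi ω = (H i).indicator (fun _ => (1:ℝ)) ω * Psi ω -
        (PE q).real (H i) * Psi ω := by
      intro ω; rw [hY]; ring
    simp_rw [this]
    rw [integral_sub (hHP i hi) (hPi.const_mul _), integral_const_mul]
  rw [e1]
  have hXX : ∀ ω, X ω ^ 2 = ∑ i ∈ I, ∑ j ∈ I, Y i ω * Y j ω := by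
    intro ω; rw [hX]; simp only; rw [sq, Finset.sum_mul_sum]
  have hX2i : Integrable (fun ω => X ω ^ 2) (PE q) := by
    simp_rw [hXX]
    exact integrable_finsetSum _ fun i hi => integrable_finsetSum _ fun j hj => hYY i hi j hj
  have hXPi : Integrable (fun ω => X ω * Psi ω) (PE q) := by
    have : ∀ ω, X ω * Psi ω = ∑ i ∈ I, Y i ω * Psi ω := by
      intro ω; rw [hX]; simp only; rw [Finset.sum_mul]
    simp_rw [this]
    exact integrable_finsetSum _ fun i hi => hYP i hi
  have hV : ∫ ω, X ω ^ 2 ∂(PE q) ≤ D * I.card := by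
    simp_rw [hXX]
    rw [integral_finsetSum _ (fun i hi => integrable_finsetSum _ fun j hj => hYY i hi j hj)]
    calc _ ≤ ∑ i ∈ I, (D : ℝ) := by
          refine Finset.sum_le_sum fun i hi => ?_
          rw [integral_finsetSum _ (fun j hj => hYY i hi j hj)]
          calc _ ≤ ∑ j ∈ I, (if ¬ Disjoint (R i) (R j) then (1 : ℝ) else 0) := by
                refine Finset.sum_le_sum fun j hj => ?_
                have := cov_le q (hH i hi) (hH j hj) (R i) (R j) (hR i hi) (hR j hj)
                rw [hY]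
                exact this
            _ = ((I.filter (fun j => ¬ Disjoint (R i) (R j))).card : ℝ) := by
                rw [Finset.sum_ite, Finset.sum_const_zero, add_zero, Finset.sum_const,
                  nsmul_eq_mul, mul_one]
            _ ≤ D := by exact_mod_cast hD i hi
      _ = D * I.card := by rw [Finset.sum_const, nsmul_eq_mul]; ring
  have key : ∀ t : ℝ, 0 < t → ∫ ω, X ω * Psi ω ∂(PE q) ≤ t / 2 * (D * I.card) + 1 / (2 * t) := by
    intro t ht
    have h1 : ∀ ω, X ω * Psi ω ≤ t / 2 * X ω ^ 2 + 1 / (2 * t) := by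
      intro ω
      have h2 : X ω * Psi ω ≤ t / 2 * X ω ^ 2 + 1 / (2 * t) * Psi ω ^ 2 := by
        have h3 : t / 2 * X ω ^ 2 + 1 / (2 * t) * Psi ω ^ 2 - X ω * Psi ω =
            1 / (2 * t) * (t * X ω - Psi ω) ^ 2 := by
          field_simp
          ring
        have h4 : 0 ≤ 1 / (2 * t) * (t * X ω - Psi ω) ^ 2 := by positivity
        linarith
      have h5 : Psi ω ^ 2 ≤ 1 := by
        have := (hP ω).1; have := (hP ω).2; nlinarith
      have h6 : 1 / (2 * t) * Psi ω ^ 2 ≤ 1 / (2 * t) * 1 :=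
        mul_le_mul_of_nonneg_left h5 (by positivity)
      linarith
    calc _ ≤ ∫ ω, (t / 2 * X ω ^ 2 + 1 / (2 * t)) ∂(PE q) :=
          integral_mono hXPi ((hX2i.const_mul _).add (integrable_const _)) h1
      _ = t / 2 * ∫ ω, X ω ^ 2 ∂(PE q) + 1 / (2 * t) := by
          rw [integral_add (hX2i.const_mul _) (integrable_const _), integral_const_mul]; simp
      _ ≤ _ := by gcongr
  have hv0 : (0 : ℝ) ≤ D * I.card := by positivity
  rcases hv0.eq_or_lt with h0 | h0
  · rw [← h0, Real.sqrt_zero]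
    refine le_of_forall_pos_le_add fun ε hε => ?_
    have := key (1 / (2 * ε)) (by positivity)
    rw [← h0] at this
    have h2 : 1 / (2 * (1 / (2 * ε))) = ε := by field_simp
    rw [h2] at this
    linarith
  · obtain ⟨s, hs⟩ : ∃ s, s = √((D : ℝ) * I.card) := ⟨_, rfl⟩
    have hs0 : 0 < s := by rw [hs]; exact Real.sqrt_pos.2 h0
    have hs2 : s ^ 2 = D * I.card := by rw [hs]; exact Real.sq_sqrt hv0
    have := key (1 / s) (by positivity)
    rw [← hs2] at this
    rw [← hs]
    have h2 : 1 / s / 2 * s ^ 2 + 1 / (2 * (1 / s)) = s := by field_simp; ring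
    rw [h2] at this
    exact this

end Pool.Agent.H15.NT
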